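import Mathlib

/-!
# An alternating trilinear expression attached to a symmetric array of rank at most two

`z a b c` is a symmetric array with values in a commutative ring in which `2` is invertible, all
`3 × 3` minors of the matrix with rows `a` and columns `{b, c}` vanish. The expression `E` below is
alternating in its nine arguments and is killed by high powers of all entries `z a b c`.
-/

set_option autoImplicit false

namespace Pool.Agent.W474.Cat

variable {T : Type*} [CommRing T] {ι : Type*}

/-- The eight term expression, alternating in the pairs `(s, s')`, `(t, t')`, `(u, u')`. -/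
def E (z : ι → ι → ι → T) (x y w s s' t t' u u' : ι) : T :=
  z x s u' * z y s' t * z w t' u - z x s' u' * z y s t * z w t' u
  - z x s u' * z y s' t' * z w t u - z x s u * z y s' t * z w t' u'
  + z x s' u' * z y s t' * z w t u + z x s' u * z y s t * z w t' u'
  + z x s u * z y s' t' * z w t u' - z x s' u * z y s t' * z w t u'

/-- A symmetric array with vanishing `3 × 3` minors. -/
structure Rk2 (z : ι → ι → ι → T) : Prop where
  h1 : ∀ a b c, z a b c = z b a c
  h2 : ∀ a b c, z a b c = z a c b
  det : ∀ a b c p p' q q' r r',
    z a p p' * (z b q q' * z c r r' - z b r r' * z c q q')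
    - z a q q' * (z b p p' * z c r r' - z b r r' * z c p p')
    + z a r r' * (z b p p' * z c q q' - z b q q' * z c p p') = 0
  two : IsUnit (2 : T)

namespace Rk2

variable {z : ι → ι → ι → T} (H : Rk2 z)

include H

/-- Cyclic rotation of the three blocks. -/
theorem cyc (x y w s s' t t' u u' : ι) : E z x y w s s' t t' u u' = E z y w x t t' u u' s s' := by
  have h2 := H.h2
  unfold E
  simp only [h2]
  ring

/-- Exchange of the first two blocks. -/
theorem flip (x y w s s' t t' u u' : ι) :
    E z x y w s s' t t' u u' = - E z y x w s s' u u' t t' := by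
  have h2 := H.h2
  unfold E
  simp only [h2]
  ring

omit H in
theorem altS (x y w s s' t t' u u' : ι) : E z x y w s' s t t' u u' = - E z x y w s s' t t' u u' := by
  unfold E
  ring

omit H in
theorem altT (x y w s s' t t' u u' : ι) : E z x y w s s' t' t u u' = - E z x y w s s' t t' u u' := by
  unfold E
  ring

omit H in
theorem altU (x y w s s' t t' u u' : ι) : E z x y w s s' t t' u' u = - E z x y w s s' t t' u u' := by
  unfold E
  ring

/-- Exchange of two pairs. -/
theorem exTU (x y w s s' t t' u u' : ι) :
    E z x y w s s' t t' u u' = E z x y w s s' u u' t t' := by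
  have h1 := H.h1
  have h2 := H.h2
  have d1 := H.det u' t t' w u x s y s'
  have d2 := H.det u t t' w u' x s y s'
  have d3 := H.det u' t t' w u x s' y s
  have d4 := H.det u t t' w u' x s' y s
  unfold E
  simp only [h1, h2] at d1 d2 d3 d4 ⊢
  linear_combination d1 - d2 - d3 + d4

theorem exST (x y w s s' t t' u u' : ι) :
    E z x y w s s' t t' u u' = E z x y w t t' s s' u u' := by
  rw [← H.cyc w x y, H.exTU, H.cyc]

theorem exSU (x y w s s' t t' u u' : ι) :
    E z x y w s s' t t' u u' = E z x y w u u' t t' s s' := by
  rw [H.cyc x y w, H.exTU, ← H.cyc]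

theorem swapXY (x y w s s' t t' u u' : ι) :
    E z y x w s s' t t' u u' = - E z x y w s s' t t' u u' := by
  rw [H.flip x y, ← H.exTU, neg_neg]

theorem swapYW (x y w s s' t t' u u' : ι) :
    E z x w y s s' t t' u u' = - E z x y w s s' t t' u u' := by
  rw [H.cyc, H.swapXY, ← H.cyc]

theorem swapXW (x y w s s' t t' u u' : ι) :
    E z w y x s s' t t' u u' = - E z x y w s s' t t' u u' := by
  rw [H.swapYW, H.swapXY, H.swapYW, neg_neg]

/-- Exchange of the pairs `(y, w)` and `(s, s')`. -/
theorem mix0 (x y w s s' t t' u u' : ι) :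
    E z x y w s s' t t' u u' - E z x w y s s' t t' u u' =
      E z x s s' y w t t' u u' - E z x s' s y w t t' u u' := by
  have h1 := H.h1
  have h2 := H.h2
  have d1 := H.det w s s' t y t' u x u'
  have d2 := H.det y s s' t w t' u x u'
  have d3 := H.det w s s' t' y t u x u'
  have d4 := H.det y s s' t' w t u x u'
  have d5 := H.det w s s' t y t' u' x u
  have d6 := H.det y s s' t w t' u' x u
  have d7 := H.det w s s' t' y t u' x u
  have d8 := H.det y s s' t' w t u' x u
  unfold E
  simp only [h1, h2] at d1 d2 d3 d4 d5 d6 d7 d8 ⊢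
  linear_combination d1 - d2 - d3 + d4 - d5 + d6 + d7 - d8

theorem mix (x y w s s' t t' u u' : ι) :
    E z x y w s s' t t' u u' = E z x s s' y w t t' u u' := by
  have h := H.mix0 x y w s s' t t' u u'
  rw [H.swapYW x y w, H.swapYW x s s'] at h
  refine H.two.mul_left_cancel ?_
  linear_combination h

theorem swapXS (x y w s s' t t' u u' : ι) :
    E z s y w x s' t t' u u' = - E z x y w s s' t t' u u' := by
  rw [H.mix s y w, H.swapXY, ← H.mix]

theorem swapXS' (x y w s s' t t' u u' : ι) :
    E z s' y w s x t t' u u' = - E z x y w s s' t t' u u' := by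
  rw [altS, H.swapXS, altS, neg_neg]

theorem swapXT (x y w s s' t t' u u' : ι) :
    E z t y w s s' x t' u u' = - E z x y w s s' t t' u u' := by
  rw [H.exST, H.swapXS, H.exST]

theorem swapXT' (x y w s s' t t' u u' : ι) :
    E z t' y w s s' t x u u' = - E z x y w s s' t t' u u' := by
  rw [altT, H.swapXT, altT, neg_neg]

theorem swapXU (x y w s s' t t' u u' : ι) :
    E z u y w s s' t t' x u' = - E z x y w s s' t t' u u' := by
  rw [H.exSU, H.swapXS, H.exSU]

theorem swapXU' (x y w s s' t t' u u' : ι) :
    E z u' y w s s' t t' u x = - E z x y w s s' t t' u u' := by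
  rw [altU, H.swapXU, altU, neg_neg]

theorem eqXY (x w s s' t t' u u' : ι) : E z x x w s s' t t' u u' = 0 := by
  have h := H.swapXY x x w s s' t t' u u'
  refine H.two.mul_left_cancel ?_
  linear_combination h

theorem eqYW (x y s s' t t' u u' : ι) : E z x y y s s' t t' u u' = 0 := by
  have h := H.swapYW x y y s s' t t' u u'
  refine H.two.mul_left_cancel ?_
  linear_combination h

theorem eqXW (x y s s' t t' u u' : ι) : E z x y x s s' t t' u u' = 0 := by
  have h := H.swapXW x y x s s' t t' u u'
  refine H.two.mul_left_cancel ?_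
  linear_combination h

/-- Cramer's rule in the first argument. -/
theorem cramer (a b c p p' q q' y w s s' t t' u u' : ι) :
    (z a p p' * z b q q' - z a q q' * z b p p') * E z c y w s s' t t' u u' =
      (z a p p' * z c q q' - z a q q' * z c p p') * E z b y w s s' t t' u u'
      - (z b p p' * z c q q' - z b q q' * z c p p') * E z a y w s s' t t' u u' := by
  have d1 := H.det a b c p p' q q' s u'
  have d2 := H.det a b c p p' q q' s' u'
  have d3 := H.det a b c p p' q q' s u
  have d4 := H.det a b c p p' q q' s' u
  unfold E
  linear_combination (z y s' t * z w t' u - z y s' t' * z w t u) * d1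
    - (z y s t * z w t' u - z y s t' * z w t u) * d2
    - (z y s' t * z w t' u' - z y s' t' * z w t u') * d3
    + (z y s t * z w t' u' - z y s t' * z w t u') * d4

/-- All `2 × 2` minors, cubed, kill `E`. -/
theorem minor_pow (a b p p' q q' x y w s s' t t' u u' : ι) :
    (z a p p' * z b q q' - z a q q' * z b p p') ^ 3 * E z x y w s s' t t' u u' = 0 := by
  have e1 := H.cramer a b x p p' q q' y w s s' t t' u u'
  -- second argument
  have e2 : (z a p p' * z b q q' - z a q q' * z b p p') * E z b y w s s' t t' u u' =
      (z b p p' * z y q q' - z b q q' * z y p p') * E z a b w s s' t t' u u' := by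
    have := H.cramer a b y p p' q q' b w s s' t t' u u'
    rw [H.eqXY, H.swapXY b y w] at this
    rw [show E z b y w s s' t t' u u' = - - E z b y w s s' t t' u u' from (neg_neg _).symm]
    linear_combination -this
  have e3 : (z a p p' * z b q q' - z a q q' * z b p p') * E z a y w s s' t t' u u' =
      (z a p p' * z y q q' - z a q q' * z y p p') * E z a b w s s' t t' u u' := by
    have := H.cramer a b y p p' q q' a w s s' t t' u u'
    rw [H.eqXY, H.swapXY a y w, H.swapXY a b w] at this
    linear_combination -this
  have e4 : (z a p p' * z b q q' - z a q q' * z b p p') * E z a b w s s' t t' u u' = 0 := by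
    have := H.cramer a b w p p' q q' b a s s' t t' u u'
    rw [H.eqXW, H.eqXY] at this
    have e5 : E z w b a s s' t t' u u' = - E z a b w s s' t t' u u' := H.swapXW a b w s s' t t' u u'
    rw [e5] at this
    linear_combination -this
  linear_combination (z a p p' * z b q q' - z a q q' * z b p p') ^ 2 * e1
    + (z a p p' * z b q q' - z a q q' * z b p p') *
      (z a p p' * z x q q' - z a q q' * z x p p') * e2
    - (z a p p' * z b q q' - z a q q' * z b p p') *
      (z b p p' * z x q q' - z b q q' * z x p p') * e3
    + ((z a p p' * z x q q' - z a q q' * z x p p') *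
        (z b p p' * z y q q' - z b q q' * z y p p') -
      (z b p p' * z x q q' - z b q q' * z x p p') *
        (z a p p' * z y q q' - z a q q' * z y p p')) * e4

/-- A diagonal entry `z a a a` kills `E` if `a` is among the arguments. -/
theorem diag_first (a y w s s' t t' u u' : ι) : z a a a * E z a y w s s' t t' u u' = 0 := by
  have h1 := H.h1
  have h2 := H.h2
  have i1 := H.eqXY a w s s' t t' u u'
  have i2 := H.eqXY a y s s' t t' u u'
  have i3 := H.eqXW a w s s' t t' u u'
  have i4 := H.eqXW a y s s' t t' u u'
  have i5 := H.swapYW a y w s s' t t' u u'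
  have d : ∀ σ σ' τ τ' υ υ', z a σ υ' * (z a a a * (z y σ' τ * z w τ' υ - z y τ' υ * z w σ' τ)
      - z a σ' τ * (z y a a * z w τ' υ - z y τ' υ * z w a a)
      + z a τ' υ * (z y a a * z w σ' τ - z y σ' τ * z w a a)) = 0 := by
    intro σ σ' τ τ' υ υ'
    rw [H.det a y w a a σ' τ τ' υ, mul_zero]
  have d1 := d s s' t t' u u'
  have d2 := d s' s t t' u u'
  have d3 := d s s' t' t u u'
  have d4 := d s s' t t' u' u
  have d5 := d s' s t' t u u'
  have d6 := d s' s t t' u' u
  have d7 := d s s' t' t u' u
  have d8 := d s' s t' t u' u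
  refine H.two.mul_left_cancel ?_
  unfold E at i1 i2 i3 i4 i5 ⊢
  linear_combination d1 - d2 - d3 - d4 + d5 + d6 + d7 - d8 + z a a a * i5
    + z y a a * i1 - z w a a * i2 - z y a a * i3 + z w a a * i4

/-- The square of a diagonal entry `z a a a` kills `E`. -/
theorem diag_sq (a x y w s s' t t' u u' : ι) : z a a a ^ 2 * E z x y w s s' t t' u u' = 0 := by
  have i1 := H.swapYW x y w s s' t t' u u'
  have i2 := H.swapYW x a w s s' t t' u u'
  have i3 := H.swapYW x a y s s' t t' u u'
  have d : ∀ σ σ' τ τ' υ υ', z x σ υ' * (z a a a * (z y σ' τ * z w τ' υ - z y τ' υ * z w σ' τ)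
      - z a σ' τ * (z y a a * z w τ' υ - z y τ' υ * z w a a)
      + z a τ' υ * (z y a a * z w σ' τ - z y σ' τ * z w a a)) = 0 := by
    intro σ σ' τ τ' υ υ'
    rw [H.det a y w a a σ' τ τ' υ, mul_zero]
  have d1 := d s s' t t' u u'
  have d2 := d s' s t t' u u'
  have d3 := d s s' t' t u u'
  have d4 := d s s' t t' u' u
  have d5 := d s' s t' t u u'
  have d6 := d s' s t t' u' u
  have d7 := d s s' t' t u' u
  have d8 := d s' s t' t u' u
  have key : z a a a * E z x y w s s' t t' u u' =
      z y a a * E z x a w s s' t t' u u' - z w a a * E z x a y s s' t t' u u' := by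
    refine H.two.mul_left_cancel ?_
    unfold E at i1 i2 i3 ⊢
    linear_combination d1 - d2 - d3 - d4 + d5 + d6 + d7 - d8 + z a a a * i1
      - z y a a * i2 + z w a a * i3
  have k1 : z a a a * E z x a w s s' t t' u u' = 0 := by
    rw [H.swapXY a x w, mul_neg, H.diag_first, neg_zero]
  have k2 : z a a a * E z x a y s s' t t' u u' = 0 := by
    rw [H.swapXY a x y, mul_neg, H.diag_first, neg_zero]
  linear_combination z a a a * key + z y a a * k1 - z w a a * k2

end Rk2

end Pool.Agent.W474.Cat
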