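import Mathlib

/-!
# Catalecticant matrices and the ideals of their minors
-/

set_option autoImplicit false

namespace Pool.Agent.W474.Cat

noncomputable section

open MvPolynomial

/-- Exponent vectors `γ` of degree `d` in `n` variables. -/
abbrev Mon (n d : ℕ) : Type := {γ : Fin n → ℕ // ∑ i, γ i = d}

/-- Sum of exponent vectors. -/
def Mon.add {n i j : ℕ} (α : Mon n i) (β : Mon n j) : Mon n (i + j) :=
  ⟨fun t => α.1 t + β.1 t, by rw [Finset.sum_add_distrib, α.2, β.2]⟩

/-- The `(i, j)` catalecticant matrix `Υ^{i, j}` (so `d = i + j`): rows are indexed by the exponent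
vectors `α` of degree `i`, columns by the exponent vectors `β` of degree `j`, and the entry is the
variable `z_{α + β}` of `S = k[z_γ : |γ| = i + j]`. -/
def catalecticant (k : Type*) [CommRing k] (n i j : ℕ) :
    Matrix (Mon n i) (Mon n j) (MvPolynomial (Mon n (i + j)) k) :=
  Matrix.of fun α β => X (α.add β)

/-- `Minors_r(Υ^{i, j})`: the ideal generated by the `(r + 1) × (r + 1)` minors. -/
def minorsIdeal (k : Type*) [CommRing k] (n i j r : ℕ) :
    Ideal (MvPolynomial (Mon n (i + j)) k) :=
  Ideal.span {g | ∃ (a : Fin (r + 1) → Mon n i) (b : Fin (r + 1) → Mon n j),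
    g = ((catalecticant k n i j).submatrix a b).det}

/-- The irrelevant ideal of `S = k[z_γ : |γ| = d]`. -/
def irrelevant (k : Type*) [CommRing k] (n d : ℕ) : Ideal (MvPolynomial (Mon n d) k) :=
  Ideal.span (Set.range X)

end

end Pool.Agent.W474.Cat
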