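import Pool.Agent.W474.Cat.Defs
import Pool.Agent.W474.Cat.Alt

/-!
# A linear functional in characteristic three which kills the `3 × 3` minors
-/

set_option autoImplicit false

namespace Pool.Agent.W474.Cat

open MvPolynomial

section pairing

variable {k : Type*} [CommRing k]

/-- Product over four pairs of letters of the difference of the labels. -/
def pv (b : Fin 9 → k) : k := (b 2 - b 1) * (b 4 - b 3) * (b 6 - b 5) * (b 8 - b 7)

theorem pv_affine (b : Fin 9 → k) (m : Fin 9) :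
    pv (fun i => b i + 2 * (Pi.single m 1 : Fin 9 → k) i) =
      2 * pv (fun i => b i + (Pi.single m 1 : Fin 9 → k) i) - pv b := by
  fin_cases m <;> simp [pv] <;> ring

/-- The alternating sum over the labellings of three letters vanishes. -/
theorem pv_alt (b : Fin 9 → k) (m₀ m₁ m₂ : Fin 9) (f : k → k → k → k)
    (hf : ∀ u₀ u₁ u₂, f u₀ u₁ u₂ = pv (fun i => b i + u₀ * (Pi.single m₀ 1 : Fin 9 → k) i
      + u₁ * (Pi.single m₁ 1 : Fin 9 → k) i + u₂ * (Pi.single m₂ 1 : Fin 9 → k) i)) :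
    f 0 1 2 - f 0 2 1 - f 1 0 2 + f 1 2 0 + f 2 0 1 - f 2 1 0 = 0 := by
  have h0 : ∀ u₁ u₂, f 2 u₁ u₂ = 2 * f 1 u₁ u₂ - f 0 u₁ u₂ := by
    intro u₁ u₂
    have := pv_affine (fun i => b i + u₁ * (Pi.single m₁ 1 : Fin 9 → k) i
      + u₂ * (Pi.single m₂ 1 : Fin 9 → k) i) m₀
    rw [hf, hf, hf]
    exact (congrArg pv (funext fun i => by ring)).trans (this.trans (congrArg₂ (fun a b => a - b)
      (congrArg (fun a => 2 * a) (congrArg pv (funext fun i => by ring)))
      (congrArg pv (funext fun i => by ring))))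
  have h1 : ∀ u₀ u₂, f u₀ 2 u₂ = 2 * f u₀ 1 u₂ - f u₀ 0 u₂ := by
    intro u₀ u₂
    have := pv_affine (fun i => b i + u₀ * (Pi.single m₀ 1 : Fin 9 → k) i
      + u₂ * (Pi.single m₂ 1 : Fin 9 → k) i) m₁
    rw [hf, hf, hf]
    exact (congrArg pv (funext fun i => by ring)).trans (this.trans (congrArg₂ (fun a b => a - b)
      (congrArg (fun a => 2 * a) (congrArg pv (funext fun i => by ring)))
      (congrArg pv (funext fun i => by ring))))
  have h2 : ∀ u₀ u₁, f u₀ u₁ 2 = 2 * f u₀ u₁ 1 - f u₀ u₁ 0 := by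
    intro u₀ u₁
    have := pv_affine (fun i => b i + u₀ * (Pi.single m₀ 1 : Fin 9 → k) i
      + u₁ * (Pi.single m₁ 1 : Fin 9 → k) i) m₂
    rw [hf, hf, hf]
    exact (congrArg pv (funext fun i => by ring)).trans (this.trans (congrArg₂ (fun a b => a - b)
      (congrArg (fun a => 2 * a) (congrArg pv (funext fun i => by ring)))
      (congrArg pv (funext fun i => by ring))))
  rw [h2 0 1, h1 0 1, h2 1 0, h1 1 0, h0 0 1, h0 1 0]
  ring

end pairing

section functional

variable {k : Type*} [CommRing k] {n : ℕ}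

/-- The first nine letters. -/
def letter (hn : 9 ≤ n) (m : Fin 9) : Fin n := Fin.castLE hn m

/-- The weight in which the functional is supported. -/
def tgt (n : ℕ) (i : Fin n) : ℕ := if i.val < 9 then 1 else 0

theorem tgt_letter (hn : 9 ≤ n) (m : Fin 9) : tgt n (letter hn m) = 1 := by
  simp [tgt, letter]

/-- Value of the functional on the monomial `z_{γ₀} z_{γ₁} z_{γ₂}`. -/
def phi (k : Type*) [CommRing k] (hn : 9 ≤ n) (γ₀ γ₁ γ₂ : Mon n (1 + 2)) : k :=
  if ∀ i, γ₀.1 i + γ₁.1 i + γ₂.1 i = tgt n i then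
    pv (fun m => (γ₁.1 (letter hn m) : k) + 2 * (γ₂.1 (letter hn m) : k)) else 0

theorem phi_swap01 (h3 : (3 : k) = 0) (hn : 9 ≤ n) (γ₀ γ₁ γ₂ : Mon n (1 + 2)) :
    phi k hn γ₀ γ₁ γ₂ = phi k hn γ₁ γ₀ γ₂ := by
  unfold phi
  by_cases h : ∀ i, γ₀.1 i + γ₁.1 i + γ₂.1 i = tgt n i
  · have h' : ∀ i, γ₁.1 i + γ₀.1 i + γ₂.1 i = tgt n i := fun i => by rw [← h i]; ring
    rw [if_pos h, if_pos h']
    have e : ∀ m, (γ₀.1 (letter hn m) : k) =
        1 - (γ₁.1 (letter hn m) : k) - (γ₂.1 (letter hn m) : k) := by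
      intro m
      have := h (letter hn m)
      rw [tgt_letter] at this
      have h2 : ((γ₀.1 (letter hn m) + γ₁.1 (letter hn m) + γ₂.1 (letter hn m) : ℕ) : k) = 1 := by
        rw [this]; simp
      push_cast at h2
      linear_combination h2
    have e2 : (fun m => (γ₀.1 (letter hn m) : k) + 2 * (γ₂.1 (letter hn m) : k)) =
        fun m => 1 - ((γ₁.1 (letter hn m) : k) + 2 * (γ₂.1 (letter hn m) : k)) := by
      funext m
      rw [e m]
      linear_combination (γ₂.1 (letter hn m) : k) * h3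
    rw [e2]
    unfold pv
    ring
  · have h' : ¬ ∀ i, γ₁.1 i + γ₀.1 i + γ₂.1 i = tgt n i := fun h2 =>
      h fun i => by rw [← h2 i]; ring
    rw [if_neg h, if_neg h']

theorem phi_swap12 (h3 : (3 : k) = 0) (hn : 9 ≤ n) (γ₀ γ₁ γ₂ : Mon n (1 + 2)) :
    phi k hn γ₀ γ₁ γ₂ = phi k hn γ₀ γ₂ γ₁ := by
  unfold phi
  by_cases h : ∀ i, γ₀.1 i + γ₁.1 i + γ₂.1 i = tgt n i
  · have h' : ∀ i, γ₀.1 i + γ₂.1 i + γ₁.1 i = tgt n i := fun i => by rw [← h i]; ring
    rw [if_pos h, if_pos h']
    have e2 : (fun m => (γ₂.1 (letter hn m) : k) + 2 * (γ₁.1 (letter hn m) : k)) =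
        fun m => - ((γ₁.1 (letter hn m) : k) + 2 * (γ₂.1 (letter hn m) : k)) := by
      funext m
      linear_combination ((γ₁.1 (letter hn m) : k) + (γ₂.1 (letter hn m) : k)) * h3
    rw [e2]
    unfold pv
    ring
  · have h' : ¬ ∀ i, γ₀.1 i + γ₂.1 i + γ₁.1 i = tgt n i := fun h2 =>
      h fun i => by rw [← h2 i]; ring
    rw [if_neg h, if_neg h']

/-- A symmetric function of three arguments on lists. -/
def lval {α : Type*} (f : α → α → α → k) : List α → k
  | [a, b, c] => f a b c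
  | _ => 0

omit [CommRing k] in
theorem perm3 {α : Type*} (f : α → α → α → k) (h1 : ∀ a b c, f a b c = f b a c)
    (h2 : ∀ a b c, f a b c = f a c b) {a b c x y z : α} (h : [x, y, z].Perm [a, b, c]) :
    f x y z = f a b c := by
  have pair : ∀ {u v p q : α} (w : α), [u, v].Perm [p, q] → f w u v = f w p q := by
    intro u v p q w hp
    have hu : u ∈ [p, q] := hp.mem_iff.1 (by simp)
    rcases List.mem_cons.1 hu with rfl | hu
    · have := (List.perm_cons u).1 hp
      rw [List.singleton_perm_singleton] at this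
      rw [this]
    · obtain rfl := List.mem_singleton.1 hu
      have := (List.perm_cons u).1 (hp.trans (List.Perm.swap _ _ _))
      rw [List.singleton_perm_singleton] at this
      rw [this, h2]
  have hx : x ∈ [a, b, c] := h.mem_iff.1 (by simp)
  rcases List.mem_cons.1 hx with rfl | hx
  · exact pair x ((List.perm_cons x).1 h)
  rcases List.mem_cons.1 hx with rfl | hx
  · have := (List.perm_cons x).1 (h.trans (List.Perm.swap _ _ _))
    rw [pair x this, h1]
  · obtain rfl := List.mem_singleton.1 hx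
    have h' : [a, b, x].Perm [x, a, b] :=
      (List.Perm.cons a (List.Perm.swap _ _ _)).trans (List.Perm.swap _ _ _)
    have := (List.perm_cons x).1 (h.trans h')
    rw [pair x this, h1, h2]

theorem lval_perm {α : Type*} (f : α → α → α → k) (h1 : ∀ a b c, f a b c = f b a c)
    (h2 : ∀ a b c, f a b c = f a c b) {l l' : List α} (h : l.Perm l') : lval f l = lval f l' := by
  have hl := h.length_eq
  rcases l with _ | ⟨x, _ | ⟨y, _ | ⟨z, _ | ⟨w, l⟩⟩⟩⟩
  · rcases l' with _ | ⟨a, l'⟩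
    · rfl
    · simp at hl
  · rcases l' with _ | ⟨a, _ | ⟨b, l'⟩⟩
    · rfl
    · rfl
    · simp at hl
  · rcases l' with _ | ⟨a, _ | ⟨b, _ | ⟨c, l'⟩⟩⟩
    · rfl
    · rfl
    · rfl
    · simp at hl
  · rcases l' with _ | ⟨a, _ | ⟨b, _ | ⟨c, _ | ⟨d, l'⟩⟩⟩⟩
    · simp at hl
    · simp at hl
    · simp at hl
    · exact perm3 f h1 h2 h
    · simp at hl
  · rcases l' with _ | ⟨a, _ | ⟨b, _ | ⟨c, _ | ⟨d, l'⟩⟩⟩⟩
    · rfl
    · rfl
    · rfl
    · simp at hl
    · rfl

/-- The functional on multisets of variables. -/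
def mval (h3 : (3 : k) = 0) (hn : 9 ≤ n) (s : Multiset (Mon n (1 + 2))) : k :=
  Quot.liftOn s (lval (phi k hn)) fun _ _ h => lval_perm _ (phi_swap01 h3 hn) (phi_swap12 h3 hn) h

theorem mval_three (h3 : (3 : k) = 0) (hn : 9 ≤ n) (a b c : Mon n (1 + 2)) :
    mval h3 hn {a, b, c} = phi k hn a b c := rfl

theorem mval_card (h3 : (3 : k) = 0) (hn : 9 ≤ n) (s : Multiset (Mon n (1 + 2)))
    (hs : Multiset.card s ≠ 3) : mval h3 hn s = 0 := by
  induction s using Quot.inductionOn with
  | h l =>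
    rcases l with _ | ⟨x, _ | ⟨y, _ | ⟨z, _ | ⟨w, l⟩⟩⟩⟩
    · rfl
    · rfl
    · rfl
    · exact absurd rfl hs
    · rfl

/-- The functional on polynomials. -/
noncomputable def Phi (h3 : (3 : k) = 0) (hn : 9 ≤ n) : MvPolynomial (Mon n (1 + 2)) k →ₗ[k] k :=
  (basisMonomials (Mon n (1 + 2)) k).constr k fun w => mval h3 hn (Finsupp.toMultiset w)

theorem Phi_monomial (h3 : (3 : k) = 0) (hn : 9 ≤ n) (w : Mon n (1 + 2) →₀ ℕ) (c : k) :
    Phi h3 hn (monomial w c) = c * mval h3 hn (Finsupp.toMultiset w) := by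
  have h : monomial w c = c • basisMonomials (Mon n (1 + 2)) k w := by
    rw [coe_basisMonomials, smul_monomial, smul_eq_mul, mul_one]
  rw [h, map_smul, Phi, Module.Basis.constr_basis, smul_eq_mul]

theorem Phi_three (h3 : (3 : k) = 0) (hn : 9 ≤ n) (u : Mon n (1 + 2) →₀ ℕ) (r : k)
    (a b c : Mon n (1 + 2)) :
    Phi h3 hn (monomial u r * (X a * X b * X c)) = if u = 0 then r * phi k hn a b c else 0 := by
  have e : (monomial u r * (X a * X b * X c) : MvPolynomial (Mon n (1 + 2)) k) =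
      monomial (u + (Finsupp.single a 1 + Finsupp.single b 1 + Finsupp.single c 1)) r := by
    simp only [X, monomial_mul, mul_one]
  rw [e, Phi_monomial]
  have e2 : Finsupp.toMultiset (u + (Finsupp.single a 1 + Finsupp.single b 1 +
      Finsupp.single c 1)) = Finsupp.toMultiset u + {a, b, c} := by
    rw [map_add, map_add, map_add]
    simp only [Finsupp.toMultiset_single, one_nsmul]
    rfl
  rw [e2]
  split_ifs with h
  · subst h
    rw [map_zero, zero_add, mval_three]
  · rw [mval_card, mul_zero]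
    intro hc
    apply h
    rw [Multiset.card_add] at hc
    have : Multiset.card ({a, b, c} : Multiset (Mon n (1 + 2))) = 3 := rfl
    rw [this] at hc
    have h0 : Multiset.card (Finsupp.toMultiset u) = 0 := by omega
    rw [Multiset.card_eq_zero] at h0
    ext i
    by_contra hi
    have h1 := (Finsupp.mem_toMultiset u i).2 (Finsupp.mem_support_iff.2 hi)
    rw [h0] at h1
    simp at h1

/-- The alternating sum of the values of `phi` over a `3 × 3` minor. -/
theorem phi_minor (h3 : (3 : k) = 0) (hn : 9 ≤ n) (a₀ a₁ a₂ : Mon n 1) (b₀ b₁ b₂ : Mon n 2) :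
    phi k hn (a₀.add b₀) (a₁.add b₁) (a₂.add b₂) - phi k hn (a₀.add b₀) (a₁.add b₂) (a₂.add b₁)
    - phi k hn (a₀.add b₁) (a₁.add b₀) (a₂.add b₂) + phi k hn (a₀.add b₁) (a₁.add b₂) (a₂.add b₀)
    + phi k hn (a₀.add b₂) (a₁.add b₀) (a₂.add b₁) - phi k hn (a₀.add b₂) (a₁.add b₁) (a₂.add b₀)
      = 0 := by
  -- reorder so that the label of a block is the index of its column
  rw [phi_swap12 h3 hn (a₀.add b₀) (a₁.add b₂) (a₂.add b₁),
    phi_swap01 h3 hn (a₀.add b₁) (a₁.add b₀) (a₂.add b₂),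
    phi_swap12 h3 hn (a₀.add b₁) (a₁.add b₂) (a₂.add b₀),
    phi_swap01 h3 hn (a₀.add b₁) (a₂.add b₀) (a₁.add b₂),
    phi_swap01 h3 hn (a₀.add b₂) (a₁.add b₀) (a₂.add b₁),
    phi_swap12 h3 hn (a₁.add b₀) (a₀.add b₂) (a₂.add b₁),
    phi_swap12 h3 hn (a₀.add b₂) (a₁.add b₁) (a₂.add b₀),
    phi_swap01 h3 hn (a₀.add b₂) (a₂.add b₀) (a₁.add b₁),
    phi_swap12 h3 hn (a₂.add b₀) (a₀.add b₂) (a₁.add b₁)]
  by_cases h : ∀ i, a₀.1 i + a₁.1 i + a₂.1 i + (b₀.1 i + b₁.1 i + b₂.1 i) = tgt n i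
  · -- the letters
    have letters : ∀ a : Mon n 1, (∀ i, a.1 i ≤ tgt n i) → ∃ m : Fin 9, ∀ i : Fin 9,
        (a.1 (letter hn i) : k) = (Pi.single m 1 : Fin 9 → k) i := by
      intro a ha
      have hs := a.2
      obtain ⟨l, hl⟩ : ∃ l, a.1 l ≠ 0 := by
        by_contra hcon
        push Not at hcon
        simp [hcon] at hs
      have hl9 : l.val < 9 := by
        by_contra hc
        have := ha l
        simp only [tgt, if_neg hc] at this
        omega
      refine ⟨⟨l.val, hl9⟩, fun i => ?_⟩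
      have hle : letter hn ⟨l.val, hl9⟩ = l := by
        ext; rfl
      by_cases hi : i = ⟨l.val, hl9⟩
      · subst hi
        rw [Pi.single_eq_same, hle]
        have h1 : a.1 l ≤ 1 := by
          have := ha l
          simp only [tgt, if_pos hl9] at this
          exact this
        have h2 : a.1 l = 1 := by omega
        rw [h2, Nat.cast_one]
      · rw [Pi.single_eq_of_ne hi]
        have hne : letter hn i ≠ l := by
          intro h5
          apply hi
          have h9 : (letter hn i).val = l.val := congrArg Fin.val h5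
          exact Fin.ext h9
        have h6 : a.1 (letter hn i) + a.1 l ≤ ∑ t, a.1 t := by
          have := Finset.add_sum_erase Finset.univ a.1 (Finset.mem_univ l)
          have h7 : a.1 (letter hn i) ≤ ∑ x ∈ Finset.univ.erase l, a.1 x :=
            Finset.single_le_sum (fun _ _ => Nat.zero_le _)
              (Finset.mem_erase.2 ⟨hne, Finset.mem_univ _⟩)
          omega
        have h8 : a.1 (letter hn i) = 0 := by omega
        rw [h8, Nat.cast_zero]
    obtain ⟨m₀, hm₀⟩ := letters a₀ fun i => by have := h i; omega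
    obtain ⟨m₁, hm₁⟩ := letters a₁ fun i => by have := h i; omega
    obtain ⟨m₂, hm₂⟩ := letters a₂ fun i => by have := h i; omega
    have key := pv_alt (fun m => (b₁.1 (letter hn m) : k) + 2 * (b₂.1 (letter hn m) : k)) m₀ m₁ m₂
      (fun u₀ u₁ u₂ => pv (fun i => ((b₁.1 (letter hn i) : k) + 2 * (b₂.1 (letter hn i) : k))
        + u₀ * (Pi.single m₀ 1 : Fin 9 → k) i
        + u₁ * (Pi.single m₁ 1 : Fin 9 → k) i + u₂ * (Pi.single m₂ 1 : Fin 9 → k) i))
      (fun _ _ _ => rfl)
    simp only [← hm₀, ← hm₁, ← hm₂] at key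
    have val : ∀ (p q r : Mon n 1), (∀ i, p.1 i + q.1 i + r.1 i = a₀.1 i + a₁.1 i + a₂.1 i) →
        phi k hn (p.add b₀) (q.add b₁) (r.add b₂) =
          pv (fun i => ((b₁.1 (letter hn i) : k) + 2 * (b₂.1 (letter hn i) : k))
            + (q.1 (letter hn i) : k) + 2 * (r.1 (letter hn i) : k)) := by
      intro p q r hpqr
      unfold phi
      rw [if_pos]
      · congr 1
        funext i
        simp only [Mon.add]
        push_cast
        ring
      · intro i
        rw [← h i, ← hpqr i]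
        simp only [Mon.add]
        ring
    rw [val a₀ a₁ a₂ (fun i => by ring), val a₀ a₂ a₁ (fun i => by ring),
      val a₁ a₀ a₂ (fun i => by ring), val a₂ a₀ a₁ (fun i => by ring),
      val a₁ a₂ a₀ (fun i => by ring), val a₂ a₁ a₀ (fun i => by ring)]
    refine Eq.trans ?_ key
    refine congrArg₂ (fun a b => a - b) (congrArg₂ (fun a b => a + b) (congrArg₂ (fun a b => a + b)
      (congrArg₂ (fun a b => a - b) (congrArg₂ (fun a b => a - b) ?_ ?_) ?_) ?_) ?_) ?_ <;>
    · refine congrArg pv (funext fun i => ?_)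
      ring
  · have z : ∀ (p q r : Mon n 1) , (∀ i, p.1 i + q.1 i + r.1 i = a₀.1 i + a₁.1 i + a₂.1 i) →
        phi k hn (p.add b₀) (q.add b₁) (r.add b₂) = 0 := by
      intro p q r hpqr
      unfold phi
      rw [if_neg]
      intro h2
      apply h
      intro i
      rw [← h2 i, ← hpqr i]
      simp only [Mon.add]
      ring
    rw [z a₀ a₁ a₂ (fun i => by ring), z a₀ a₂ a₁ (fun i => by ring),
      z a₁ a₀ a₂ (fun i => by ring), z a₂ a₀ a₁ (fun i => by ring),
      z a₁ a₂ a₀ (fun i => by ring), z a₂ a₁ a₀ (fun i => by ring)]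
    ring

end functional

end Pool.Agent.W474.Cat
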