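import Pool.Agent.W474.Cat.Func

/-!
# The `3 × 3` minors of `Υ^{1,2}` are not saturated in characteristic three
-/

set_option autoImplicit false

namespace Pool.Agent.W474.Cat

open MvPolynomial

theorem finite_Mon (n d : ℕ) : Finite (Mon n d) := by
  refine Finite.of_injective (β := Fin n → Fin (d + 1)) (fun γ i => ⟨γ.1 i, ?_⟩) ?_
  · have h1 := γ.2
    have h2 : γ.1 i ≤ ∑ t, γ.1 t :=
      Finset.single_le_sum (fun _ _ => Nat.zero_le _) (Finset.mem_univ i)
    omega
  · intro γ δ h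
    apply Subtype.ext
    funext i
    have := congrFun h i
    simpa using this

section

variable {k : Type*} [CommRing k] {n : ℕ}

/-- The functional vanishes on the ideal of minors. -/
theorem Phi_ideal (h3 : (3 : k) = 0) (hn : 9 ≤ n) (x : MvPolynomial (Mon n (1 + 2)) k)
    (hx : x ∈ minorsIdeal k n 1 2 2) : Phi h3 hn x = 0 := by
  suffices h : ∀ g : MvPolynomial (Mon n (1 + 2)) k, Phi h3 hn (g * x) = 0 by
    simpa using h 1
  unfold minorsIdeal at hx
  induction hx using Submodule.span_induction with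
  | mem x hx =>
    obtain ⟨a, b, rfl⟩ := hx
    intro g
    induction g using MvPolynomial.induction_on' with
    | monomial u r =>
      have e := Matrix.det_fin_three ((catalecticant k n 1 2).submatrix a b)
      rw [e]
      simp only [Matrix.submatrix_apply, catalecticant, Matrix.of_apply, mul_sub, mul_add, map_sub,
        map_add, Phi_three]
      split_ifs with hu
      · have := phi_minor h3 hn (a 0) (a 1) (a 2) (b 0) (b 1) (b 2)
        linear_combination r * this
      · ring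
    | add p q hp hq => rw [add_mul, map_add, hp, hq, add_zero]
  | zero => intro g; simp
  | add x y _ _ hx hy => intro g; rw [mul_add, map_add, hx, hy, add_zero]
  | smul a x _ hx => intro g; rw [smul_eq_mul, ← mul_assoc]; exact hx _

/-- The exponent vector of a letter. -/
def e (a : Fin n) : Mon n 1 := ⟨Pi.single a 1, by simp⟩

/-- The variable `z_{abc}`. -/
noncomputable def z0 (k : Type*) [CommRing k] (a b c : Fin n) : MvPolynomial (Mon n (1 + 2)) k :=
  X ((e a).add ((e b).add (e c)))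

theorem z0_1 (a b c : Fin n) : z0 k a b c = z0 k b a c := by
  unfold z0
  congr 1
  apply Subtype.ext
  funext i
  simp only [Mon.add]
  ring

theorem z0_2 (a b c : Fin n) : z0 k a b c = z0 k a c b := by
  unfold z0
  congr 1
  apply Subtype.ext
  funext i
  simp only [Mon.add]
  ring

theorem z0_det (a b c p p' q q' r r' : Fin n) :
    z0 k a p p' * (z0 k b q q' * z0 k c r r' - z0 k b r r' * z0 k c q q')
    - z0 k a q q' * (z0 k b p p' * z0 k c r r' - z0 k b r r' * z0 k c p p')
    + z0 k a r r' * (z0 k b p p' * z0 k c q q' - z0 k b q q' * z0 k c p p')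
      ∈ minorsIdeal k n 1 2 2 := by
  refine Ideal.subset_span ⟨![e a, e b, e c],
    ![(e p).add (e p'), (e q).add (e q'), (e r).add (e r')], ?_⟩
  have h := Matrix.det_fin_three ((catalecticant k n 1 2).submatrix ![e a, e b, e c]
    ![(e p).add (e p'), (e q).add (e q'), (e r).add (e r')])
  rw [h]
  simp only [Matrix.submatrix_apply, catalecticant, Matrix.of_apply, z0, Matrix.cons_val_zero,
    Matrix.cons_val_one, Matrix.cons_val]
  ring

/-- The array in the quotient ring. -/
theorem rk2 (h3 : (3 : k) = 0) :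
    Rk2 (fun a b c : Fin n => Ideal.Quotient.mk (minorsIdeal k n 1 2 2) (z0 k a b c)) where
  h1 a b c := by rw [z0_1]
  h2 a b c := by rw [z0_2]
  det a b c p p' q q' r r' := by
    have h := (Ideal.Quotient.eq_zero_iff_mem).2 (z0_det (k := k) a b c p p' q q' r r')
    simpa only [map_add, map_sub, map_mul] using h
  two := by
    refine IsUnit.of_mul_eq_one 2 ?_
    have h : (3 : MvPolynomial (Mon n (1 + 2)) k ⧸ minorsIdeal k n 1 2 2) = 0 := by
      rw [← map_ofNat (algebraMap k (MvPolynomial (Mon n (1 + 2)) k ⧸ minorsIdeal k n 1 2 2)) 3, h3,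
        map_zero]
    linear_combination h

/-- The polynomial. -/
noncomputable def f (k : Type*) [CommRing k] (hn : 9 ≤ n) : MvPolynomial (Mon n (1 + 2)) k :=
  E (z0 k) (letter hn 0) (letter hn 1) (letter hn 2) (letter hn 3) (letter hn 4) (letter hn 5)
    (letter hn 6) (letter hn 7) (letter hn 8)

theorem mk_f (hn : 9 ≤ n) : Ideal.Quotient.mk (minorsIdeal k n 1 2 2) (f k hn) =
    E (fun a b c : Fin n => Ideal.Quotient.mk (minorsIdeal k n 1 2 2) (z0 k a b c))
    (letter hn 0) (letter hn 1) (letter hn 2) (letter hn 3) (letter hn 4) (letter hn 5)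
    (letter hn 6) (letter hn 7) (letter hn 8) := by
  unfold f E
  simp only [map_sub, map_add, map_mul]

/-- The multipliers of `f` into the ideal. -/
def J (k : Type*) [CommRing k] (hn : 9 ≤ n) : Ideal (MvPolynomial (Mon n (1 + 2)) k) where
  carrier := {g | g * f k hn ∈ minorsIdeal k n 1 2 2}
  add_mem' := fun {a b} ha hb => by
    show (a + b) * f k hn ∈ minorsIdeal k n 1 2 2
    rw [add_mul]
    exact Ideal.add_mem _ ha hb
  zero_mem' := by
    show 0 * f k hn ∈ minorsIdeal k n 1 2 2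
    rw [zero_mul]
    exact Ideal.zero_mem _
  smul_mem' := fun c x hx => by
    show c • x * f k hn ∈ minorsIdeal k n 1 2 2
    rw [smul_eq_mul, mul_assoc]
    exact Ideal.mul_mem_left _ _ hx

theorem mem_J (hn : 9 ≤ n) (g : MvPolynomial (Mon n (1 + 2)) k) :
    g ∈ J k hn ↔ g * f k hn ∈ minorsIdeal k n 1 2 2 := Iff.rfl

theorem minor_mem (h3 : (3 : k) = 0) (hn : 9 ≤ n) (a b p p' q q' : Fin n) :
    z0 k a p p' * z0 k b q q' - z0 k a q q' * z0 k b p p' ∈ (J k hn).radical := by
  refine ⟨3, ?_⟩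
  rw [mem_J, ← Ideal.Quotient.eq_zero_iff_mem, map_mul, mk_f]
  simp only [map_pow, map_sub, map_mul]
  exact (rk2 h3).minor_pow a b p p' q q' _ _ _ _ _ _ _ _ _

theorem diag_mem (h3 : (3 : k) = 0) (hn : 9 ≤ n) (a : Fin n) :
    z0 k a a a ∈ (J k hn).radical := by
  refine ⟨2, ?_⟩
  rw [mem_J, ← Ideal.Quotient.eq_zero_iff_mem, map_mul, mk_f]
  simp only [map_pow]
  exact (rk2 h3).diag_sq a _ _ _ _ _ _ _ _ _

theorem z0_mem (h3 : (3 : k) = 0) (hn : 9 ≤ n) (a b c : Fin n) :
    z0 k a b c ∈ (J k hn).radical := by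
  have h : z0 k a b c ^ 3 ∈ (J k hn).radical := by
    have m1 := minor_mem h3 hn a c b c a b
    have m2 := minor_mem h3 hn a b a a b c
    have m3 := diag_mem h3 hn a
    have : z0 k a b c ^ 3 = z0 k a b c * (z0 k a b c * z0 k c a b - z0 k a a b * z0 k c b c)
        - z0 k c b c * (z0 k a a a * z0 k b b c - z0 k a b c * z0 k b a a)
        + (z0 k b b c * z0 k c b c) * z0 k a a a := by
      rw [z0_1 c a b, z0_2 a c b, z0_1 b a a, z0_2 a b a]
      ring
    rw [this]
    exact Ideal.add_mem _ (Ideal.sub_mem _ (Ideal.mul_mem_left _ _ m1)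
      (Ideal.mul_mem_left _ _ m2)) (Ideal.mul_mem_left _ _ m3)
  exact (Ideal.radical_isRadical _) ⟨3, h⟩

theorem split {d : ℕ} (γ : Mon n (1 + d)) : ∃ (a : Fin n) (γ' : Mon n d), γ = (e a).add γ' := by
  have hs := γ.2
  obtain ⟨a, ha⟩ : ∃ a, γ.1 a ≠ 0 := by
    by_contra hcon
    push Not at hcon
    simp only [hcon, Finset.sum_const_zero] at hs
    omega
  have hle : ∀ t, (Pi.single a 1 : Fin n → ℕ) t ≤ γ.1 t := by
    intro t
    by_cases ht : t = a
    · subst ht
      rw [Pi.single_eq_same]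
      omega
    · rw [Pi.single_eq_of_ne ht]
      exact Nat.zero_le _
  refine ⟨a, ⟨fun t => γ.1 t - (Pi.single a 1 : Fin n → ℕ) t, ?_⟩, ?_⟩
  · have h2 : ∑ t, (Pi.single a 1 : Fin n → ℕ) t + ∑ t, (γ.1 t - (Pi.single a 1 : Fin n → ℕ) t) =
        ∑ t, γ.1 t := by
      rw [← Finset.sum_add_distrib]
      exact Finset.sum_congr rfl fun t _ => Nat.add_sub_cancel' (hle t)
    rw [hs, Finset.sum_pi_single'] at h2
    simp only [Finset.mem_univ, if_true] at h2
    exact Nat.add_left_cancel h2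
  · apply Subtype.ext
    funext t
    simp only [Mon.add, e]
    exact (Nat.add_sub_cancel' (hle t)).symm

theorem X_eq_z0 (γ : Mon n (1 + 2)) : ∃ a b c, (X γ : MvPolynomial (Mon n (1 + 2)) k) =
    z0 k a b c := by
  obtain ⟨a, γ', rfl⟩ := split γ
  obtain ⟨b, γ'', h2⟩ := split (d := 1) γ'
  obtain ⟨c, γ''', h3⟩ := split (d := 0) γ''
  refine ⟨a, b, c, ?_⟩
  unfold z0
  congr 2
  rw [h2]
  apply Subtype.ext
  funext t
  have h4 := congrArg (fun γ => γ.1 t) h3
  simp only [Mon.add] at h4 ⊢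
  have h5 : γ'''.1 t = 0 := by
    have h6 := γ'''.2
    rw [Finset.sum_eq_zero_iff] at h6
    exact h6 t (Finset.mem_univ t)
  omega

/-- A power of the irrelevant ideal multiplies `f` into the ideal of minors. -/
theorem power (h3 : (3 : k) = 0) (hn : 9 ≤ n) : ∃ N : ℕ, ∀ g ∈ irrelevant k n (1 + 2) ^ N,
    g * f k hn ∈ minorsIdeal k n 1 2 2 := by
  have h : irrelevant k n (1 + 2) ≤ (J k hn).radical := by
    unfold irrelevant
    rw [Ideal.span_le]
    rintro _ ⟨γ, rfl⟩
    obtain ⟨a, b, c, h⟩ := X_eq_z0 (k := k) γ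
    rw [h]
    exact z0_mem h3 hn a b c
  haveI := finite_Mon n (1 + 2)
  obtain ⟨N, hN⟩ := Ideal.exists_pow_le_of_le_radical_of_fg h
    ⟨(Set.finite_range X).toFinset, by rw [Set.Finite.coe_toFinset]; rfl⟩
  exact ⟨N, fun g hg => hN hg⟩

theorem f_homog (hn : 9 ≤ n) : (f k hn).IsHomogeneous 3 := by
  have hz : ∀ a b c a' b' c' a'' b'' c'' : Fin n,
      (z0 k a b c * z0 k a' b' c' * z0 k a'' b'' c'').IsHomogeneous 3 := by
    intro a b c a' b' c' a'' b'' c''
    exact ((isHomogeneous_X _ _).mul (isHomogeneous_X _ _)).mul (isHomogeneous_X _ _)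
  unfold f E
  exact ((((((((hz _ _ _ _ _ _ _ _ _).sub (hz _ _ _ _ _ _ _ _ _)).sub (hz _ _ _ _ _ _ _ _ _)).sub
    (hz _ _ _ _ _ _ _ _ _)).add (hz _ _ _ _ _ _ _ _ _)).add (hz _ _ _ _ _ _ _ _ _)).add
    (hz _ _ _ _ _ _ _ _ _)).sub (hz _ _ _ _ _ _ _ _ _))

theorem sum_letters (hn : 9 ≤ n) (i : Fin n) :
    ∑ m : Fin 9, (Pi.single (letter hn m) 1 : Fin n → ℕ) i = tgt n i := by
  by_cases hi : i.val < 9
  · rw [Finset.sum_eq_single (⟨i.val, hi⟩ : Fin 9)]
    · have : letter hn ⟨i.val, hi⟩ = i := Fin.ext rfl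
      rw [this, Pi.single_eq_same, tgt, if_pos hi]
    · intro m _ hm
      rw [Pi.single_eq_of_ne]
      intro h
      apply hm
      have := congrArg Fin.val h
      exact Fin.ext this.symm
    · intro h
      exact absurd (Finset.mem_univ _) h
  · rw [tgt, if_neg hi]
    refine Finset.sum_eq_zero fun m _ => Pi.single_eq_of_ne ?_ _
    intro h
    have := congrArg Fin.val h
    have h2 : (letter hn m).val = m.val := rfl
    omega

theorem single_letter (hn : 9 ≤ n) (a m : Fin 9) :
    (Pi.single (letter hn a) 1 : Fin n → ℕ) (letter hn m) = if m = a then 1 else 0 := by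
  by_cases h : m = a
  · subst h
    rw [Pi.single_eq_same, if_pos rfl]
  · rw [if_neg h, Pi.single_eq_of_ne]
    intro h2
    apply h
    have := congrArg Fin.val h2
    exact Fin.ext this

theorem Phi_z0 (h3 : (3 : k) = 0) (hn : 9 ≤ n) (a b c a' b' c' a'' b'' c'' : Fin n) :
    Phi h3 hn (z0 k a b c * z0 k a' b' c' * z0 k a'' b'' c'') =
      phi k hn ((e a).add ((e b).add (e c))) ((e a').add ((e b').add (e c')))
        ((e a'').add ((e b'').add (e c''))) := by
  have h := Phi_three h3 hn 0 1 ((e a).add ((e b).add (e c))) ((e a').add ((e b').add (e c')))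
        ((e a'').add ((e b'').add (e c'')))
  rw [if_pos rfl, one_mul] at h
  rw [← h]
  congr 1
  rw [monomial_zero', C_1, one_mul]
  rfl

theorem Phi_f (h3 : (3 : k) = 0) (hn : 9 ≤ n) : Phi h3 hn (f k hn) = -1 := by
  have hs : ∀ i : Fin n, tgt n i = (Pi.single (letter hn 0) 1 : Fin n → ℕ) i
      + (Pi.single (letter hn 1) 1 : Fin n → ℕ) i + (Pi.single (letter hn 2) 1 : Fin n → ℕ) i
      + (Pi.single (letter hn 3) 1 : Fin n → ℕ) i + (Pi.single (letter hn 4) 1 : Fin n → ℕ) i
      + (Pi.single (letter hn 5) 1 : Fin n → ℕ) i + (Pi.single (letter hn 6) 1 : Fin n → ℕ) i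
      + (Pi.single (letter hn 7) 1 : Fin n → ℕ) i + (Pi.single (letter hn 8) 1 : Fin n → ℕ) i := by
    intro i
    rw [← sum_letters hn i, Fin.sum_univ_castSucc, Fin.sum_univ_eight]
    rfl
  unfold f E
  simp only [map_sub, map_add, Phi_z0]
  unfold phi
  rw [if_pos, if_pos, if_pos, if_pos, if_pos, if_pos, if_pos, if_pos]
  · simp only [pv, Mon.add, e, single_letter]
    simp
    linear_combination (-5 : k) * h3
  all_goals
    intro i
    rw [hs i]
    simp only [Mon.add, e]
    ring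

theorem f_not_mem [Nontrivial k] (h3 : (3 : k) = 0) (hn : 9 ≤ n) :
    f k hn ∉ minorsIdeal k n 1 2 2 := by
  intro h
  have h1 := Phi_ideal h3 hn _ h
  rw [Phi_f] at h1
  exact one_ne_zero (neg_eq_zero.1 h1)

/-- In characteristic three the ideal of `3 × 3` minors of `Υ^{1,2}` is not saturated if
`n ≥ 9`. -/
theorem main [Nontrivial k] (h3 : (3 : k) = 0) (hn : 9 ≤ n) :
    ∃ f : MvPolynomial (Mon n (1 + 2)) k, f.IsHomogeneous 3 ∧ f ∉ minorsIdeal k n 1 2 2 ∧
      ∃ N : ℕ, ∀ g ∈ irrelevant k n (1 + 2) ^ N, g * f ∈ minorsIdeal k n 1 2 2 :=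
  ⟨f k hn, f_homog hn, f_not_mem h3 hn, power h3 hn⟩

end

end Pool.Agent.W474.Cat
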